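import Pool.Agent.J6H84.ClassPres.Defs
import Pool.Agent.J6H84.ClassPres.Main

/-!
# Finite `p`-groups `G` with `|Aut_c(G)| = |γ₂(G)| ^ d(G)`

We determine all finite `p`-groups whose group of class-preserving automorphisms has the
maximal possible order `|γ₂(G)| ^ d(G)`, where `γ₂(G)` is the commutator subgroup and `d(G)` is
the minimal number of generators (`Group.rank G`). `AutC G` is the subgroup of all automorphisms
`α` such that `α x` is conjugate to `x` for all `x`.
-/

namespace Pool.Agent.Results.MP_932391_al.MaximalClassPreserving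

open Pool.Agent.J6H84.ClassPres Subgroup
open scoped commutatorElement

/-- A finite `p`-group `G` satisfies `|Aut_c(G)| = |γ₂(G)| ^ d(G)` if and only if one of the
following holds:
* `G` has class at most two and `x ^ G = x γ₂(G)` for all `x` outside the Frattini subgroup;
* `d(G) = 2`, `γ₂(G)` is cyclic and, if `p = 2`, `γ₃(G) ≤ γ₂(G) ^ 4`;
* `p = 2`, `d(G) = 2`, `G` has class three and `γ₂(G)` is elementary abelian.
Moreover, for `G` of class at most two, the condition in the first item holds if and only if
`Z(G / M) = Φ(G / M)` for every maximal subgroup `M` of `γ₂(G)`. -/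
theorem result {p : ℕ} [Fact p.Prime] {G : Type*} [Group G] [Finite G] (hG : IsPGroup p G) :
    (Nat.card (AutC G) = Nat.card (commutator G) ^ Group.rank G ↔
      (Group.nilpotencyClass G ≤ 2 ∧
        ∀ x : G, x ∉ frattini G → conjugatesOf x = {y | x⁻¹ * y ∈ commutator G}) ∨
      (Group.rank G = 2 ∧ IsCyclic (commutator G) ∧
        (p = 2 → ∀ t ∈ ⁅commutator G, (⊤ : Subgroup G)⁆, ∃ b ∈ commutator G, b ^ 4 = t)) ∨
      (p = 2 ∧ Group.rank G = 2 ∧ Group.nilpotencyClass G = 3 ∧
        ∀ a ∈ commutator G, a ^ 2 = 1)) ∧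
    (Group.nilpotencyClass G ≤ 2 →
      ((∀ x : G, x ∉ frattini G → conjugatesOf x = {y | x⁻¹ * y ∈ commutator G}) ↔
        ∀ (M : Subgroup G) [M.Normal], M ⋖ commutator G →
          Subgroup.center (G ⧸ M) = frattini (G ⧸ M))) := by
  have hnil : Group.IsNilpotent G := hG.isNilpotent
  have hcl2 : Group.nilpotencyClass G ≤ 2 ↔ lcs G 2 = ⊥ :=
    (Subgroup.lowerCentralSeries_eq_bot_iff_nilpotencyClass_le (G := G)).symm
  have hcl3 : Group.nilpotencyClass G ≤ 3 ↔ lcs G 3 = ⊥ :=
    (Subgroup.lowerCentralSeries_eq_bot_iff_nilpotencyClass_le (G := G)).symm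
  have hoff : (∀ x : G, x ∉ frattini G → conjugatesOf x = {y | x⁻¹ * y ∈ commutator G}) ↔
      ∀ x, x ∉ frattini G → ∀ g ∈ commutator G, IsConj x (x * g) := by
    refine forall_congr' fun x => forall_congr' fun _ => ?_
    constructor
    · intro h g hg
      have : x * g ∈ conjugatesOf x := by
        rw [h]
        show x⁻¹ * (x * g) ∈ commutator G
        rw [inv_mul_cancel_left]; exact hg
      exact this
    · intro h
      apply Set.Subset.antisymm
      · intro y hy
        exact inv_mul_mem_commutator_of_isConj hy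
      · intro y hy
        have := h _ hy
        rw [mul_inv_cancel_left] at this
        exact this
  refine ⟨?_, ?_⟩
  · rw [classification hG, hcl2, hoff]
    refine or_congr Iff.rfl (or_congr ?_ ?_)
    · refine and_congr Iff.rfl (and_congr Iff.rfl (forall_congr' fun _ => ?_))
      refine forall₂_congr fun t _ => ?_
      constructor
      · rintro ⟨b, hb, h⟩; exact ⟨b, hb, h.symm⟩
      · rintro ⟨b, hb, h⟩; exact ⟨b, hb, h.symm⟩
    · have h3 : Group.nilpotencyClass G = 3 ↔ lcs G 3 = ⊥ ∧ lcs G 2 ≠ ⊥ := by
        rw [← hcl3, Ne, ← hcl2]; omega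
      rw [h3]
      tauto
  · intro h
    rw [hoff]
    exact off_iff_center hG (hcl2.1 h)

end Pool.Agent.Results.MP_932391_al.MaximalClassPreserving
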